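import Pool.Agent.H17.WBT

/-!
# SU: the number of survivors in an interval (Selberg's sieve), and the choice of the class

`W = WWb P D` = the product of the primes `≤ D` different from the prime `P` (`Pool/Agent/H17/WBT.lean`).
-/

set_option autoImplicit false

open Pool.Agent.H17

namespace H91UC

open BoundingSieve in
theorem sieve_coprime (b : ℕ) (hb : 1 ≤ b) (D : ℕ) (hD : 2 ≤ D) (I : Finset ℕ) (w : ℕ → ℝ)
    (hw : ∀ n, 0 ≤ w n) (X : ℝ) (hX : 0 ≤ X) :
    ∑ n ∈ I.filter (fun n => Nat.Coprime (WWb b D) n), w n ≤ Cb b * X / Real.log D +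
      ∑ e ∈ (Finset.Icc 1 (D ^ 2)).filter (fun e => Squarefree e ∧ e.Coprime b),
        (3 : ℝ) ^ e.primeFactors.card * |(∑ n ∈ I.filter (fun n => e ∣ n), w n) - X / e| := by
  have h1 := Selb.selberg_bound (s := svb b D I w hw X) (z := D) (by omega)
  rw [svb_GG] at h1
  have h2 := svb_err b D I w hw X
  have h3 := GG_lower b hb (D := D) (by omega)
  have hlog : 0 < Real.log D := Real.log_pos (by exact_mod_cast (by omega : 1 < D))
  set G := Op (PPb b D) (fun p => 1 / ((p : ℝ) - 1)) one1 D with hG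
  have hCb := Cb_pos b
  have hG0 : 0 < G := by
    by_contra hcon
    have := mul_nonpos_of_nonneg_of_nonpos hCb.le (not_lt.mp hcon)
    linarith
  have h4 : X * G⁻¹ ≤ Cb b * X / Real.log D := by
    rw [← div_eq_mul_inv, div_le_div_iff₀ hG0 hlog]
    calc X * Real.log D ≤ X * (Cb b * G) := by gcongr
      _ = Cb b * X * G := by ring
  have h5 : ∑ n ∈ I.filter (fun n => Nat.Coprime (WWb b D) n), w n = (svb b D I w hw X).siftedSum := by
    unfold BoundingSieve.siftedSum
    show _ = ∑ n ∈ I, (if Nat.Coprime (WWb b D) n then w n else 0)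
    rw [← Finset.sum_filter]
  have h6 : (svb b D I w hw X).totalMass = X := rfl
  rw [h6] at h1
  rw [h5]
  exact h1.trans (add_le_add h4 h2)

lemma Cb_le_two {P : ℕ} (hP : P.Prime) : Cb P ≤ 2 := by
  unfold Cb
  rw [Nat.Prime.primeFactors hP, Finset.prod_singleton]
  have h2 : (2 : ℝ) ≤ P := by exact_mod_cast hP.two_le
  have h3 : 1 / ((P : ℝ) - 1) ≤ 1 := by
    rw [div_le_one (by linarith)]
    linarith
  linarith

/-- survivors in an interval -/
theorem su : ∃ C : ℝ, 0 < C ∧ ∀ P : ℕ, P.Prime → ∀ D : ℕ, 2 ≤ D → ∀ y z : ℕ, D ^ 3 ≤ z →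
    (((Finset.Ioc y (y + z)).filter (fun n => Nat.Coprime (WWb P D) n)).card : ℝ) ≤ C * z / Real.log D := by
  refine ⟨2 + 16 * 6561, by norm_num, fun P hP D hD y z hz => ?_⟩
  have hD0 : (1 : ℝ) < D := by exact_mod_cast (by omega : 1 < D)
  have hlog : 0 < Real.log D := Real.log_pos hD0
  have h1 := sieve_coprime P hP.one_lt.le D hD (Finset.Ioc y (y + z)) (fun _ => 1) (fun _ => zero_le_one)
    (z : ℝ) (Nat.cast_nonneg _)
  have e1 : ∑ n ∈ (Finset.Ioc y (y + z)).filter (fun n => Nat.Coprime (WWb P D) n), (1 : ℝ)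
      = (((Finset.Ioc y (y + z)).filter (fun n => Nat.Coprime (WWb P D) n)).card : ℝ) := by simp
  rw [e1] at h1
  have hD2pos : (1 : ℝ) ≤ ((D ^ 2 : ℕ) : ℝ) := by
    exact_mod_cast Nat.one_le_pow _ _ (by omega)
  have e2 : ∑ e ∈ (Finset.Icc 1 (D ^ 2)).filter (fun e => Squarefree e ∧ e.Coprime P),
      (3 : ℝ) ^ e.primeFactors.card * |(∑ n ∈ (Finset.Ioc y (y + z)).filter (fun n => e ∣ n), (1 : ℝ)) - z / e|
      ≤ (D ^ 2 : ℕ) * (1 + Real.log (D ^ 2 : ℕ)) ^ 3 := by
    calc _ ≤ ∑ e ∈ (Finset.Icc 1 (D ^ 2)).filter (fun e => Squarefree e ∧ e.Coprime P),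
          ((D ^ 2 : ℕ) : ℝ) * ((3 : ℝ) ^ e.primeFactors.card / e) := by
          apply Finset.sum_le_sum
          intro e he
          rw [Finset.mem_filter, Finset.mem_Icc] at he
          have he1 := he.1.1
          have h2 := count_dvd_Ioc y z e he1
          have he0 : (0 : ℝ) < e := by exact_mod_cast he1
          have e3 : ∑ n ∈ (Finset.Ioc y (y + z)).filter (fun n => e ∣ n), (1 : ℝ)
              = (((Finset.Ioc y (y + z)).filter (fun n => e ∣ n)).card : ℝ) := by simp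
          rw [e3]
          have h3 : (1 : ℝ) ≤ ((D ^ 2 : ℕ) : ℝ) / e := by
            rw [le_div_iff₀ he0, one_mul]
            exact_mod_cast he.1.2
          calc (3 : ℝ) ^ e.primeFactors.card * |((((Finset.Ioc y (y + z)).filter (fun n => e ∣ n)).card : ℕ) : ℝ) - z / e|
              ≤ (3 : ℝ) ^ e.primeFactors.card * 1 := by gcongr
            _ ≤ (3 : ℝ) ^ e.primeFactors.card * (((D ^ 2 : ℕ) : ℝ) / e) := by gcongr
            _ = ((D ^ 2 : ℕ) : ℝ) * ((3 : ℝ) ^ e.primeFactors.card / e) := by ring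
      _ = ((D ^ 2 : ℕ) : ℝ) * ∑ e ∈ (Finset.Icc 1 (D ^ 2)).filter (fun e => Squarefree e ∧ e.Coprime P),
            ((3 : ℝ) ^ e.primeFactors.card / e) := by rw [Finset.mul_sum]
      _ ≤ ((D ^ 2 : ℕ) : ℝ) * ∑ e ∈ (Finset.Icc 1 (D ^ 2)).filter Squarefree,
            ((3 : ℝ) ^ e.primeFactors.card / e) := by
          apply mul_le_mul_of_nonneg_left _ (Nat.cast_nonneg _)
          apply Finset.sum_le_sum_of_subset_of_nonneg
          · intro e he
            rw [Finset.mem_filter] at he ⊢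
            exact ⟨he.1, he.2.1⟩
          · intro e _ _
            positivity
      _ ≤ _ := by
          apply mul_le_mul_of_nonneg_left _ (Nat.cast_nonneg _)
          exact sum_three_omega _ (Nat.one_le_pow _ _ (by omega))
  have e3 : ((D ^ 2 : ℕ) : ℝ) * (1 + Real.log (D ^ 2 : ℕ)) ^ 3 ≤ 16 * 6561 * z / Real.log D := by
    rw [le_div_iff₀ hlog]
    have h2 : Real.log ((D ^ 2 : ℕ) : ℝ) = 2 * Real.log D := by
      push_cast
      rw [Real.log_pow]
      norm_num
    rw [h2]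
    have h3 : (1 + Real.log D) ^ 4 ≤ 6561 * (D : ℝ) ^ ((1 : ℝ) / 2) := log_pow_four_le hD0.le
    have h4 : (D : ℝ) ^ ((1 : ℝ) / 2) ≤ D := by
      calc (D : ℝ) ^ ((1 : ℝ) / 2) ≤ (D : ℝ) ^ (1 : ℝ) := Real.rpow_le_rpow_of_exponent_le hD0.le (by norm_num)
        _ = D := Real.rpow_one _
    have h5 : (1 + 2 * Real.log D) ^ 3 * Real.log D ≤ 16 * (1 + Real.log D) ^ 4 := by
      have h6 : (1 + 2 * Real.log D) ≤ 2 * (1 + Real.log D) := by linarith
      calc (1 + 2 * Real.log D) ^ 3 * Real.log D ≤ (2 * (1 + Real.log D)) ^ 3 * (1 + Real.log D) := by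
            gcongr
            linarith
        _ = 8 * (1 + Real.log D) ^ 4 := by ring
        _ ≤ 16 * (1 + Real.log D) ^ 4 := by
            have : 0 ≤ (1 + Real.log D) ^ 4 := by positivity
            linarith
    have h7 : ((D ^ 3 : ℕ) : ℝ) ≤ z := by exact_mod_cast hz
    push_cast at h7 ⊢
    calc (D : ℝ) ^ 2 * (1 + 2 * Real.log D) ^ 3 * Real.log D
        = (D : ℝ) ^ 2 * ((1 + 2 * Real.log D) ^ 3 * Real.log D) := by ring
      _ ≤ (D : ℝ) ^ 2 * (16 * (6561 * D)) := by
          have h8 : 16 * (1 + Real.log D) ^ 4 ≤ 16 * (6561 * (D : ℝ)) := by linarith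
          exact mul_le_mul_of_nonneg_left (h5.trans h8) (by positivity)
      _ = 16 * 6561 * (D : ℝ) ^ 3 := by ring
      _ ≤ 16 * 6561 * z := by gcongr
  have hCb := Cb_le_two hP
  calc (((Finset.Ioc y (y + z)).filter (fun n => Nat.Coprime (WWb P D) n)).card : ℝ)
      ≤ Cb P * z / Real.log D + _ := h1
    _ ≤ 2 * z / Real.log D + 16 * 6561 * z / Real.log D := by
        apply add_le_add
        · gcongr
        · exact e2.trans e3
    _ = _ := by ring

/-- a class which avoids few residues modulo every prime -/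
theorem choose_class (P D : ℕ) (H : Finset ℕ) (X0 : ℕ)
    (hH : ∀ p : ℕ, p.Prime → p ≤ H.card → ∀ h ∈ H, p ∣ h) :
    ∃ b < WWb P D, ∀ h ∈ H, Nat.Coprime (X0 + b + h) (WWb P D) := by
  classical
  -- a good residue modulo each prime
  have h1 : ∀ p : ℕ, p.Prime → ∃ r < p, ∀ h ∈ H, ¬ p ∣ X0 + r + h := by
    intro p hp
    by_cases hple : p ≤ H.card
    · -- r with X0 + r = 1 mod p
      refine ⟨(p * X0 + 1 - X0) % p, Nat.mod_lt _ hp.pos, ?_⟩
      intro h hh hdvd
      have h2 := hH p hp hple h hh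
      have h3 : p ∣ X0 + (p * X0 + 1 - X0) % p := (Nat.dvd_add_left h2).mp hdvd
      have h4 : X0 ≤ p * X0 + 1 := by nlinarith [hp.pos]
      have h5 : X0 + (p * X0 + 1 - X0) % p ≡ X0 + (p * X0 + 1 - X0) [MOD p] :=
        Nat.ModEq.add_left _ (Nat.mod_modEq _ _)
      have h6 : X0 + (p * X0 + 1 - X0) = p * X0 + 1 := by omega
      rw [h6] at h5
      have h7 : p ∣ p * X0 + 1 := (h5.dvd_iff dvd_rfl).mp h3
      have h8 : p ∣ 1 := (Nat.dvd_add_right (dvd_mul_right p X0)).mp h7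
      exact hp.one_lt.ne' (Nat.dvd_one.mp h8)
    · -- pigeonhole
      by_contra hcon
      push Not at hcon
      have h2 : (Finset.range p) ⊆ H.image (fun h => (p * (X0 + h) - (X0 + h)) % p) := by
        intro r hr
        rw [Finset.mem_range] at hr
        obtain ⟨h, hh, hdvd⟩ := hcon r hr
        rw [Finset.mem_image]
        refine ⟨h, hh, ?_⟩
        have h3 : (X0 + h) ≤ p * (X0 + h) := Nat.le_mul_of_pos_left _ hp.pos
        have h4 : (p * (X0 + h) - (X0 + h)) ≡ r [MOD p] := by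
          have h5 : (p * (X0 + h) - (X0 + h)) + (X0 + h) ≡ r + (X0 + h) [MOD p] := by
            rw [Nat.sub_add_cancel h3]
            have h6 : p ∣ r + (X0 + h) := by
              have : r + (X0 + h) = X0 + r + h := by ring
              rw [this]; exact hdvd
            exact ((Nat.modEq_zero_iff_dvd.mpr (dvd_mul_right p _))).trans
              (Nat.modEq_zero_iff_dvd.mpr h6).symm
          exact Nat.ModEq.add_right_cancel' _ h5
        show (p * (X0 + h) - (X0 + h)) % p = r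
        have h7 : (p * (X0 + h) - (X0 + h)) % p = r % p := h4
        rw [h7, Nat.mod_eq_of_lt hr]
      have h3 := Finset.card_le_card h2
      rw [Finset.card_range] at h3
      exact hple (h3.trans Finset.card_image_le)
  choose! r hr1 hr2 using h1
  have hco : ((PPb P D) : Set ℕ).Pairwise (fun p q => Nat.Coprime p q) := by
    intro p hp q hq hpq
    rw [Finset.mem_coe, mem_PPb] at hp hq
    exact (Nat.coprime_primes hp.2.1 hq.2.1).mpr hpq
  obtain ⟨b, hb⟩ : ∃ b : ℕ, ∀ p ∈ PPb P D, b ≡ r p [MOD p] := by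
    have h2 := Nat.chineseRemainderOfFinset r (fun p => p) (PPb P D)
      (fun p hp => (mem_PPb.mp hp).2.1.ne_zero) hco
    exact ⟨h2.1, h2.2⟩
  refine ⟨b % WWb P D, Nat.mod_lt _ (WWb_pos P D), ?_⟩
  intro h hh
  unfold WWb
  apply Nat.Coprime.prod_right
  intro p hp
  have hp' := mem_PPb.mp hp
  rw [Nat.coprime_comm, Nat.Prime.coprime_iff_not_dvd hp'.2.1]
  intro hdvd
  apply hr2 p hp'.2.1 h hh
  have h3 : b % (∏ p ∈ PPb P D, p) ≡ r p [MOD p] := by
    have h4 : b % (∏ p ∈ PPb P D, p) ≡ b [MOD p] := by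
      apply Nat.ModEq.of_dvd (Finset.dvd_prod_of_mem _ hp)
      exact Nat.mod_modEq _ _
    exact h4.trans (hb p hp)
  have h5 : X0 + b % (∏ p ∈ PPb P D, p) + h ≡ X0 + r p + h [MOD p] :=
    Nat.ModEq.add_right _ (Nat.ModEq.add_left _ h3)
  exact (h5.dvd_iff dvd_rfl).mp hdvd

end H91UC
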